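import Pool.Agent.Helper65.KPV.St

/-! Project KP, module VUNQ: uniqueness of the valuation. -/

set_option autoImplicit false
set_option linter.unusedSectionVars false

namespace Pool.Agent.Helper16.KPV

open Pool.Agent.Helper65.KPV Pool.Agent.Helper5.KPA Pool.Agent.Helper52.KP

section

variable {S : Type} [CommRing S] [IsDomain S] [Algebra ℂ S] {B : Subalgebra ℂ S}

private lemma qb_mem {x : S} (hx : x ∈ B) : QB B x :=
  ⟨1, B.one_mem, one_ne_zero, by rw [one_mul]; exact hx⟩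

private lemma qb_mul {x y : S} (hx : QB B x) (hy : QB B y) : QB B (x * y) := by
  obtain ⟨s, hs, hs0, h1⟩ := hx
  obtain ⟨t, ht, ht0, h2⟩ := hy
  refine ⟨s * t, B.mul_mem hs ht, mul_ne_zero hs0 ht0, ?_⟩
  have e : s * t * (x * y) = (s * x) * (t * y) := by ring
  rw [e]
  exact B.mul_mem h1 h2

private lemma qb_pow {x : S} (hx : QB B x) (j : ℕ) : QB B (x ^ j) := by
  induction j with
  | zero => rw [pow_zero]; exact qb_mem B.one_mem
  | succ j ih => rw [pow_succ]; exact qb_mul ih hx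

private lemma v_one {ξ : S} {v : S → ℤ} (H : PV B ξ v) : v 1 = 0 := by
  have h1 := H.mul 1 1 one_ne_zero one_ne_zero (qb_mem B.one_mem) (qb_mem B.one_mem)
  rw [one_mul] at h1
  omega

private lemma v_pow {ξ : S} {v : S → ℤ} (H : PV B ξ v) {x : S} (hx0 : x ≠ 0) (hx : QB B x)
    (j : ℕ) : v (x ^ j) = j * v x := by
  induction j with
  | zero => rw [pow_zero, v_one H]; simp
  | succ j ih =>
    rw [pow_succ, H.mul _ _ (pow_ne_zero _ hx0) hx0 (qb_pow hx j) hx, ih]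
    push_cast
    ring

private lemma xi_ne {ξ : S} {v : S → ℤ} (H : PV B ξ v) : ξ ≠ 0 := by
  intro h0
  apply H.px.nB
  rw [h0]
  exact B.zero_mem

private lemma v_zero_of {ξ : S} {v : S → ℤ} (H : PV B ξ v) {h : S} (hB : h ∈ B) (h0 : h ≠ 0)
    (hξ : h * ξ ∉ B) : v h = 0 := by
  have h1 := H.nonneg h hB h0
  have h2 : ¬ 1 ≤ v h := fun h3 => hξ ((H.pos h hB h0).1 h3)
  omega

private lemma stepA {ξ ξ' : S} {v v' : S → ℤ} (H : PV B ξ v) (H' : PV B ξ' v')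
    (hq : ∀ s ∈ B, s * ξ ∈ B ↔ s * ξ' ∈ B) {x : S} (hx0 : x ≠ 0) (hx : QB B x)
    (hv : v x = 0) : v' x = 0 := by
  obtain ⟨h, hB, hξ, hxB⟩ := H.loc x hx0 hx hv.ge
  have h0 : h ≠ 0 := by
    intro h0
    apply hξ
    rw [h0, zero_mul]
    exact B.zero_mem
  have e1 : v h = 0 := v_zero_of H hB h0 hξ
  have e2 : v (h * x) = 0 := by
    rw [H.mul h x h0 hx0 (qb_mem hB) hx, e1, hv, add_zero]
  have e3 : h * x * ξ ∉ B := by
    intro h3
    have := (H.pos _ hxB (mul_ne_zero h0 hx0)).2 h3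
    omega
  have f1 : v' h = 0 := v_zero_of H' hB h0 (fun h3 => hξ ((hq h hB).2 h3))
  have f2 : v' (h * x) = 0 :=
    v_zero_of H' hxB (mul_ne_zero h0 hx0) (fun h3 => e3 ((hq _ hxB).2 h3))
  rw [H'.mul h x h0 hx0 (qb_mem hB) hx, f1, zero_add] at f2
  exact f2

private lemma stepB {ξ ξ' : S} {v v' : S → ℤ} (H : PV B ξ v) (H' : PV B ξ' v')
    (hq : ∀ s ∈ B, s * ξ ∈ B ↔ s * ξ' ∈ B) {x : S} (hx0 : x ≠ 0) (hx : QB B x)
    {j : ℕ} (hv : v x = j) : v' x = -(v' ξ) * j := by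
  have hξ0 := xi_ne H
  have hξ := H.px.qB
  have e1 : v (x * ξ ^ j) = 0 := by
    rw [H.mul _ _ hx0 (pow_ne_zero _ hξ0) hx (qb_pow hξ j), v_pow H hξ0 hξ, H.xi, hv]
    ring
  have e2 := stepA H H' hq (mul_ne_zero hx0 (pow_ne_zero j hξ0)) (qb_mul hx (qb_pow hξ j)) e1
  rw [H'.mul _ _ hx0 (pow_ne_zero _ hξ0) hx (qb_pow hξ j), v_pow H' hξ0 hξ] at e2
  linear_combination e2

private lemma stepC {ξ ξ' : S} {v v' : S → ℤ} (H : PV B ξ v) (H' : PV B ξ' v')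
    (hq : ∀ s ∈ B, s * ξ ∈ B ↔ s * ξ' ∈ B) {x : S} (hx0 : x ≠ 0) (hx : QB B x) :
    v' x = -(v' ξ) * v x := by
  rcases le_total 0 (v x) with h0 | h0
  · obtain ⟨j, hj⟩ := Int.eq_ofNat_of_zero_le h0
    rw [stepB H H' hq hx0 hx hj, hj]
  · obtain ⟨j, hj⟩ := Int.eq_ofNat_of_zero_le (by omega : 0 ≤ -(v x))
    obtain ⟨z, hz, hz0, hvz⟩ := H.unif
    have hzq := qb_mem hz
    have e0 : v' z = -(v' ξ) * ((1 : ℕ) : ℤ) := stepB H H' hq hz0 hzq (by rw [hvz]; rfl)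
    have e1 : v (x * z ^ j) = 0 := by
      rw [H.mul _ _ hx0 (pow_ne_zero _ hz0) hx (qb_pow hzq j), v_pow H hz0 hzq, hvz]
      omega
    have e2 := stepA H H' hq (mul_ne_zero hx0 (pow_ne_zero j hz0)) (qb_mul hx (qb_pow hzq j)) e1
    rw [H'.mul _ _ hx0 (pow_ne_zero _ hz0) hx (qb_pow hzq j), v_pow H' hz0 hzq, e0] at e2
    have e3 : v x = -(j : ℤ) := by omega
    rw [e3]
    push_cast at e2
    linear_combination e2

end

theorem hUNQ : StUNQ := by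
  intro S _ _ _ B ξ ξ' v v' H H' hq x hx0 hx
  have hq' : ∀ s ∈ B, s * ξ' ∈ B ↔ s * ξ ∈ B := fun s hs => (hq s hs).symm
  have e1 := stepC H' H hq' (xi_ne H) H.px.qB
  have e2 := stepC H H' hq (xi_ne H') H'.px.qB
  rw [H'.xi] at e2
  have e3 : v' ξ * v ξ' = 1 := by linear_combination e2
  obtain ⟨z, hz, hz0, hvz⟩ := H.unif
  have e4 := stepC H H' hq hz0 (qb_mem hz)
  have e5 : 1 ≤ v' z := (H'.pos z hz hz0).2 ((hq z hz).1 ((H.pos z hz hz0).1 hvz.ge))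
  rw [hvz, mul_one] at e4
  have e6 : v' ξ = -1 := by
    rcases Int.eq_one_or_neg_one_of_mul_eq_one e3 with h | h
    · rw [h] at e4
      omega
    · exact h
  rw [stepC H H' hq hx0 hx, e6]
  ring

end Pool.Agent.Helper16.KPV
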